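import Pool.Agent.K3h5.FF.Fin
import Pool.Agent.K3h5.FF.Prw
import Pool.Agent.K3h62.FF.Ball
import Pool.Agent.K3h4.FF.Sysp
import Pool.Agent.K3h68.FF.SysS
import Pool.Agent.K3h17.FF.WB
import Pool.Agent.K3h73.FF.Inv
import Pool.Agent.K3h23.FF.Rie
import Pool.Agent.K3h51.FF.Etb
import Pool.Agent.K3h18.FF.Etl
import Pool.Agent.K3h79.FF.Bad
import Pool.Agent.K3h93.FF.FRW
import Pool.Agent.K3h40.FF.Exr
import Pool.Agent.K3h64.FF.NICE
import Pool.Agent.K3h97.FF.DET
import Pool.Agent.K3h40.FF.Pfm
import Pool.Agent.K3h2.FF.EXA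
import Pool.Agent.K3h81.FF.EXB
import Pool.Agent.K3h94.FF.Expp
import Pool.Agent.K3h40.FF.Sch
import Pool.Agent.K3h30.FF.Main
import Pool.Agent.K3h42.FF.RATIO
import Pool.Agent.K3h33.FF.Sand
import Pool.Agent.K3h45.FF.Cyc
import Pool.Agent.K3h10.FF.EW
import Pool.Agent.K3h52.FF.EWM
import Pool.Agent.K3h77.FF.Invs
import Pool.Agent.K3h13.FF.Dec
import Pool.Agent.K3h49.FF.MOM
import Pool.Agent.K3h18.FF.Var
import Pool.Agent.K3h40.FF.Qn
import Pool.Agent.K3h49.FF.GU
import Pool.Agent.K3h9.FF.Lln
import Pool.Agent.K3h67.FF.BOXL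
import Pool.Agent.K3h36.FF.MLIM
import Pool.Agent.K3h67.FF.MALM

/-!
# Local weak limit of the fixed point forest with Ewens or Mallows roots

MP_264509_pr, Q1, full answer. All the definitions are in `Pool.Agent.K3h5.FF.Defs` (and `lamE`,
`lamM` in `Pool.Agent.K3h5.FF.Stm`).

`limitGraph` is a fixed graph on states. A state is a partial labelling of the real line: some points
have a displacement `k ∈ ℤ`, some points have a front index `j = 0, 1, …`. Two states are adjacent if
one arises from the other by bumping a point `x` of displacement `0`: `x` gets the front index `0`,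
the front indices of the other front points increase by one, and the displacements of the points to
the left of `x` decrease by one.

The local weak limit of `(F_n, π_n)` is `(limitGraph, S)` where `S` is the random state given by
independent Poisson point processes on `(0, 1)` (the points of displacement `k ∈ ℤ`) and i.i.d. front
points:

* Ewens, parameter `θ > 0`: intensity `θ` for `k = 0`, `1` for `k ≠ 0`, uniform front points;
* Mallows, `n (1 - q_n) → β`: intensity `u(x, x)` for all `k`, front points of density `u(0, y)`,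
  where `u(x, y) = g(1) exp (-β (x + y)) / (g(1) - β g(x) g(y)) ^ 2`, `g(x) = ∫_0^x exp (-β t) dt`, is
  the density of the limit permuton.

Proof. The marks (displacements and front indices) of radius `r` of a state, in the order of their
places, form a word which determines the ball of radius `r` (bisimulation of forests with parent
maps). The law of the word of `π_n` converges to the law of the word of `S` by the inversion formula
for numbers of occurrences of scattered subwords; the expected numbers of occurrences are Riemann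
sums of correlations `n ^ l P(π(p_i) = a_i)`. They are computed exactly for Ewens permutations; for
Mallows permutations the correlations change slowly (transpositions change the number of
inversions by at most twice the distance), and averages over boxes converge by the law of large
numbers, which follows from exact first and second `q`-factorial moments of the number of letters
`< m` in the first `t` positions.

The bricks were proved by helpers 2, 4, 9, 10, 13, 17, 18, 23, 30, 33, 36, 40, 42, 45, 49, 51, 52, 62, 64,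
67, 68, 73, 77, 79, 81, 93, 94, 97.
-/

set_option autoImplicit false

open MeasureTheory Filter Topology ProbabilityTheory Set
open Pool.Agent.K3h5.FF

namespace Pool.Agent.Results.MP_264509_pr.EwensMallowsLimit

theorem main : S_MAIN :=
  Pool.Agent.K3h30.FF.t_MAIN Pool.Agent.K3h4.FF.t_SYSP Pool.Agent.K3h68.FF.t_SYSS
    (Pool.Agent.K3h17.FF.t_WB Pool.Agent.K3h62.FF.t_BALL) Pool.Agent.K3h73.FF.t_INV
    (Pool.Agent.K3h79.FF.t_BAD Pool.Agent.K3h51.FF.t_ETB)
    (Pool.Agent.K3h93.FF.t_FRW Pool.Agent.K3h73.FF.t_INV Pool.Agent.K3h51.FF.t_ETB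
      (Pool.Agent.K3h18.FF.t_ETL Pool.Agent.K3h23.FF.t_RIE Pool.Agent.K3h51.FF.t_ETB))
    Pool.Agent.K3h64.FF.t_NICE Pool.Agent.K3h97.FF.t_DET
    (t_PRW Pool.Agent.K3h73.FF.t_INV
      (Pool.Agent.K3h93.FF.t_FRW Pool.Agent.K3h73.FF.t_INV Pool.Agent.K3h51.FF.t_ETB
        (Pool.Agent.K3h18.FF.t_ETL Pool.Agent.K3h23.FF.t_RIE Pool.Agent.K3h51.FF.t_ETB))
      Pool.Agent.K3h64.FF.t_NICE Pool.Agent.K3h97.FF.t_DET
      (Pool.Agent.K3h94.FF.t_EXPP Pool.Agent.K3h64.FF.t_NICE Pool.Agent.K3h97.FF.t_DET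
        (Pool.Agent.K3h2.FF.t_EXA Pool.Agent.K3h40.FF.t_PFM) Pool.Agent.K3h81.FF.t_EXB))
    Pool.Agent.K3h40.FF.t_SCH

theorem ewm : S_EWM :=
  Pool.Agent.K3h52.FF.t_EWM Pool.Agent.K3h42.FF.t_RATIO Pool.Agent.K3h45.FF.t_CYC
    (Pool.Agent.K3h10.FF.t_EW Pool.Agent.K3h45.FF.t_CYC)

theorem boxl : S_BOXL :=
  Pool.Agent.K3h67.FF.BX.t_BOXL
    (Pool.Agent.K3h9.FF.t_LLN
      (Pool.Agent.K3h18.FF.t_VAR (Pool.Agent.K3h49.FF.t_MOM Pool.Agent.K3h13.FF.t_DEC))
      Pool.Agent.K3h40.FF.t_QN Pool.Agent.K3h49.FF.t_GU) Pool.Agent.K3h49.FF.t_GU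

theorem malm : S_MALM :=
  Pool.Agent.K3h67.FF.t_MALM Pool.Agent.K3h42.FF.t_RATIO Pool.Agent.K3h77.FF.t_INVS
    Pool.Agent.K3h40.FF.t_QN Pool.Agent.K3h49.FF.t_GU
    (Pool.Agent.K3h36.FF.t_MLIM Pool.Agent.K3h33.FF.t_SAND Pool.Agent.K3h77.FF.t_INVS
      Pool.Agent.K3h40.FF.t_QN Pool.Agent.K3h49.FF.t_GU boxl)

/-- **The local weak limit of the fixed point forest rooted at an Ewens or a Mallows
permutation.** -/
theorem result :
    -- (a) Ewens
    (∀ θ : ℝ, 0 < θ →
      (∃ μ : Measure (Idx → ℝ), Root (lamE θ) (fun _ => 1) μ (fun i y => y i)) ∧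
      ∀ (Ω : Type) [MeasurableSpace Ω] (μ : Measure Ω) (Y : Idx → Ω → ℝ),
        Root (lamE θ) (fun _ => 1) μ Y →
          LocalLimit (fun n => ewens θ n) μ (fun ω => rootS fun i => Y i ω)) ∧
    -- (b) Mallows
    (∀ (q : ℕ → ℝ) (β : ℝ), (∀ n, 0 < q n) →
      Tendsto (fun n : ℕ => (n : ℝ) * (1 - q n)) atTop (𝓝 β) →
      (∃ μ : Measure (Idx → ℝ), Root (lamM β) (dens β 0) μ (fun i y => y i)) ∧
      ∀ (Ω : Type) [MeasurableSpace Ω] (μ : Measure Ω) (Y : Idx → Ω → ℝ),
        Root (lamM β) (dens β 0) μ Y →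
          LocalLimit (fun n => mallows (q n) n) μ (fun ω => rootS fun i => Y i ω)) :=
  ⟨fun θ hθ => ewens_case Pool.Agent.K3h40.FF.t_EXR main ewm θ hθ,
    fun q β hq hβ => mallows_case Pool.Agent.K3h40.FF.t_EXR main malm q β hq hβ⟩

end Pool.Agent.Results.MP_264509_pr.EwensMallowsLimit
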